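import Pool.Agent.W528.HS.Stm

/-!
# Congruence of L-functions from Euler products
-/

set_option autoImplicit false

namespace Pool.Agent.W111.HS.EC

open Pool.Agent.W528.HS

section Log

variable {R : Type} [CommRing R]

/-- `S` is minus the logarithmic derivative of `W`. -/
def IsLog (W S : PowerSeries R) : Prop :=
  -(PowerSeries.X * PowerSeries.derivative R W) = W * S

theorem isLog_one : IsLog (1 : PowerSeries R) 0 := by
  unfold IsLog
  have h : PowerSeries.derivative R (1 : PowerSeries R) = 0 := Derivation.map_one_eq_zero _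
  rw [h]
  simp

theorem isLog_mul {W V S T : PowerSeries R} (h1 : IsLog W S) (h2 : IsLog V T) :
    IsLog (W * V) (S + T) := by
  unfold IsLog at *
  rw [Derivation.leibniz, smul_eq_mul, smul_eq_mul]
  linear_combination V * h1 + W * h2

theorem isLog_pow {W S : PowerSeries R} (h : IsLog W S) (m : ℕ) : IsLog (W ^ m) (m • S) := by
  induction m with
  | zero => simpa using isLog_one
  | succ m ih =>
    rw [pow_succ, succ_nsmul]
    exact isLog_mul ih h

theorem isLog_prod {ι : Type} (s : Finset ι) (W S : ι → PowerSeries R)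
    (h : ∀ i ∈ s, IsLog (W i) (S i)) : IsLog (∏ i ∈ s, W i) (∑ i ∈ s, S i) := by
  classical
  induction s using Finset.induction_on with
  | empty => simpa using isLog_one
  | insert a s ha ih =>
    rw [Finset.prod_insert ha, Finset.sum_insert ha]
    exact isLog_mul (h a (Finset.mem_insert_self a s))
      (ih fun i hi => h i (Finset.mem_insert_of_mem hi))

theorem isLog_multiset {ι : Type} (A : Multiset ι) (W S : ι → PowerSeries R)
    (h : ∀ i, IsLog (W i) (S i)) : IsLog (A.map W).prod (A.map S).sum := by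
  induction A using Multiset.induction_on with
  | empty => simpa using isLog_one
  | cons a A ih =>
    rw [Multiset.map_cons, Multiset.map_cons, Multiset.prod_cons, Multiset.sum_cons]
    exact isLog_mul (h a) ih

/-- The logarithmic derivative of `1 - y T^d`. -/
def lg (d : ℕ) (y : R) : PowerSeries R :=
  PowerSeries.mk fun n => if n ≠ 0 ∧ d ∣ n then (d : R) * y ^ (n / d) else 0

theorem isLog_lg (d : ℕ) (hd : 1 ≤ d) (y : R) :
    IsLog (1 - PowerSeries.C y * PowerSeries.X ^ d) (lg d y) := by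
  unfold IsLog
  have h1 : PowerSeries.derivative R (1 - PowerSeries.C y * PowerSeries.X ^ d : PowerSeries R) =
      - (PowerSeries.C y * ((d : PowerSeries R) * PowerSeries.X ^ (d - 1))) := by
    rw [map_sub, Derivation.map_one_eq_zero, zero_sub, Derivation.leibniz, Derivation.leibniz_pow,
      PowerSeries.derivative_C, PowerSeries.derivative_X]
    simp
  rw [h1]
  have h2 : -(PowerSeries.X * -(PowerSeries.C y * ((d : PowerSeries R) * PowerSeries.X ^ (d - 1)))) =
      PowerSeries.C ((d : R) * y) * PowerSeries.X ^ d := by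
    obtain ⟨e, rfl⟩ : ∃ e, d = e + 1 := ⟨d - 1, by omega⟩
    rw [Nat.add_sub_cancel, map_mul, map_natCast]
    ring
  rw [h2]
  ext n
  rw [sub_mul, one_mul, mul_assoc, map_sub, PowerSeries.coeff_C_mul, PowerSeries.coeff_C_mul,
    PowerSeries.coeff_X_pow_mul', PowerSeries.coeff_X_pow]
  simp only [lg, PowerSeries.coeff_mk]
  by_cases hdn : d ∣ n
  · obtain ⟨k, rfl⟩ := hdn
    rcases Nat.eq_zero_or_pos k with rfl | hk
    · have h3 : ¬ (d * 0 = d) := by omega
      have h4 : ¬ (d ≤ d * 0) := by omega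
      rw [if_neg h3, if_neg h4]
      simp
    · obtain ⟨m, rfl⟩ : ∃ m, k = m + 1 := ⟨k - 1, by omega⟩
      have h4 : d ≤ d * (m + 1) := Nat.le_mul_of_pos_right d (Nat.succ_pos m)
      have h5 : d * (m + 1) - d = d * m := by
        rw [Nat.mul_succ]
        omega
      have h6 : d * (m + 1) ≠ 0 := by positivity
      rw [if_pos h4, h5, if_pos (show d * (m + 1) ≠ 0 ∧ d ∣ d * (m + 1) from ⟨h6, Dvd.intro _ rfl⟩),
        Nat.mul_div_cancel_left _ (by omega : 0 < d)]
      rcases Nat.eq_zero_or_pos m with rfl | hm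
      · simp
      · have h7 : ¬ (d * (m + 1) = d) := by
          intro h
          have : m + 1 = 1 := Nat.eq_of_mul_eq_mul_left (by omega : 0 < d) (by rw [h, Nat.mul_one])
          omega
        have h8 : d * m ≠ 0 := by positivity
        rw [if_neg h7, if_pos (show d * m ≠ 0 ∧ d ∣ d * m from ⟨h8, Dvd.intro _ rfl⟩),
          Nat.mul_div_cancel_left _ (by omega : 0 < d)]
        ring
  · have h3 : ¬ (n = d) := fun h => hdn (h ▸ dvd_refl d)
    rw [if_neg h3, if_neg (fun h => hdn h.2)]
    by_cases h4 : d ≤ n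
    · rw [if_pos h4, if_neg (fun h => hdn ((Nat.dvd_sub_iff_left h4 (dvd_refl d)).1 h.2))]
      simp
    · rw [if_neg h4]
      simp

/-- Uniqueness. -/
theorem isLog_unique (hR : ∀ (n : ℕ) (x : R), n ≠ 0 → (n : R) * x = 0 → x = 0)
    {W V S T : PowerSeries R} (h1 : IsLog W S) (h2 : IsLog V T)
    (hW : PowerSeries.coeff 0 W = 1) (hV : PowerSeries.coeff 0 V = 1) (M : ℕ)
    (hST : ∀ n, 1 ≤ n → n ≤ M → PowerSeries.coeff n S = PowerSeries.coeff n T) :
    ∀ n ≤ M, PowerSeries.coeff n W = PowerSeries.coeff n V := by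
  have hS0 : PowerSeries.coeff 0 S = 0 := by
    have h := congrArg (PowerSeries.coeff 0) h1
    rw [PowerSeries.coeff_zero_eq_constantCoeff_apply] at hW h ⊢
    rw [PowerSeries.coeff_zero_eq_constantCoeff_apply, map_mul, hW, one_mul] at h
    rw [← h]
    simp
  have hT0 : PowerSeries.coeff 0 T = 0 := by
    have h := congrArg (PowerSeries.coeff 0) h2
    rw [PowerSeries.coeff_zero_eq_constantCoeff_apply] at hV h ⊢
    rw [PowerSeries.coeff_zero_eq_constantCoeff_apply, map_mul, hV, one_mul] at h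
    rw [← h]
    simp
  have hc : ∀ (W S : PowerSeries R), IsLog W S → ∀ n : ℕ, 1 ≤ n →
      -((n : R) * PowerSeries.coeff n W) =
        ∑ p ∈ Finset.HasAntidiagonal.antidiagonal n, PowerSeries.coeff p.1 W * PowerSeries.coeff p.2 S := by
    intro W S h n hn
    obtain ⟨m, rfl⟩ : ∃ m, n = m + 1 := ⟨n - 1, by omega⟩
    have h3 := congrArg (PowerSeries.coeff (m + 1)) h
    rw [PowerSeries.coeff_mul, map_neg, PowerSeries.coeff_succ_X_mul,
      PowerSeries.coeff_derivative] at h3
    rw [← h3]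
    push_cast
    ring
  intro n
  induction n using Nat.strong_induction_on with
  | _ n ih =>
    intro hn
    rcases Nat.eq_zero_or_pos n with rfl | hn0
    · rw [hW, hV]
    · have h3 : ∑ p ∈ Finset.HasAntidiagonal.antidiagonal n, PowerSeries.coeff p.1 W * PowerSeries.coeff p.2 S =
          ∑ p ∈ Finset.HasAntidiagonal.antidiagonal n, PowerSeries.coeff p.1 V * PowerSeries.coeff p.2 T := by
        refine Finset.sum_congr rfl fun p hp => ?_
        have hp' := Finset.HasAntidiagonal.mem_antidiagonal.1 hp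
        rcases Nat.eq_zero_or_pos p.2 with h0 | h0
        · rw [h0, hS0, hT0, mul_zero, mul_zero]
        · rw [ih p.1 (by omega) (by omega), hST p.2 h0 (by omega)]
      rw [← hc W S h1 n hn0, ← hc V T h2 n hn0] at h3
      have h4 : (n : R) * (PowerSeries.coeff n W - PowerSeries.coeff n V) = 0 := by
        linear_combination - h3
      exact sub_eq_zero.1 (hR n _ (by omega) h4)

/-- The product over the elements of a multiset. -/
noncomputable def gs (A : Multiset R) : PowerSeries R :=
  (A.map fun x => 1 - PowerSeries.C x * PowerSeries.X ^ 1).prod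

theorem isLog_gs (A : Multiset R) : IsLog (gs A) (A.map fun x => lg 1 x).sum :=
  isLog_multiset A _ _ fun x => isLog_lg 1 le_rfl x

theorem coeff_lg_one (x : R) (n : ℕ) (hn : 1 ≤ n) : PowerSeries.coeff n (lg 1 x) = x ^ n := by
  simp only [lg, PowerSeries.coeff_mk]
  rw [if_pos ⟨by omega, one_dvd n⟩]
  simp

theorem coeff_gs (A : Multiset R) (n : ℕ) (hn : 1 ≤ n) :
    PowerSeries.coeff n (A.map fun x => lg 1 x).sum = (A.map fun x => x ^ n).sum := by
  rw [map_multiset_sum, Multiset.map_map]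
  congr 1
  refine Multiset.map_congr rfl fun x _ => ?_
  exact coeff_lg_one x n hn

/-- The Euler product. -/
noncomputable def pm (N : ℕ) (μ : R) (a : ℕ → ℕ → ℕ) (M : ℕ) : PowerSeries R :=
  ∏ d ∈ Finset.Icc 1 M, ∏ i ∈ Finset.range N,
    (1 - PowerSeries.C (μ ^ i) * PowerSeries.X ^ d) ^ (a d i)

theorem isLog_pm (N : ℕ) (μ : R) (a : ℕ → ℕ → ℕ) (M : ℕ) : IsLog (pm N μ a M)
    (∑ d ∈ Finset.Icc 1 M, ∑ i ∈ Finset.range N, a d i • lg d (μ ^ i)) := by
  refine isLog_prod _ _ _ fun d hd => isLog_prod _ _ _ fun i _ => isLog_pow ?_ _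
  exact isLog_lg d (Finset.mem_Icc.1 hd).1 _

theorem coeff_pm (N : ℕ) (μ : R) (a : ℕ → ℕ → ℕ) (M n : ℕ) (hn : 1 ≤ n) (hM : n ≤ M) :
    PowerSeries.coeff n
      (∑ d ∈ Finset.Icc 1 M, ∑ i ∈ Finset.range N, a d i • lg d (μ ^ i)) = orbSum N μ a n := by
  have h1 : n.divisors = (Finset.Icc 1 M).filter (fun d => d ∣ n) := by
    ext d
    simp only [Nat.mem_divisors, Finset.mem_filter, Finset.mem_Icc]
    constructor
    · rintro ⟨h1, h2⟩
      exact ⟨⟨Nat.pos_of_dvd_of_pos h1 hn, (Nat.le_of_dvd hn h1).trans hM⟩, h1⟩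
    · rintro ⟨_, h1⟩
      exact ⟨h1, by omega⟩
  unfold orbSum
  rw [h1, Finset.sum_filter, map_sum]
  refine Finset.sum_congr rfl fun d _ => ?_
  rw [map_sum]
  by_cases hd : d ∣ n
  · rw [if_pos hd, Finset.mul_sum]
    refine Finset.sum_congr rfl fun i _ => ?_
    rw [map_nsmul]
    simp only [lg, PowerSeries.coeff_mk]
    rw [if_pos ⟨by omega, hd⟩, nsmul_eq_mul, pow_mul]
    ring
  · rw [if_neg hd]
    refine Finset.sum_eq_zero fun i _ => ?_
    rw [map_nsmul]
    simp only [lg, PowerSeries.coeff_mk]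
    rw [if_neg (fun h => hd h.2), smul_zero]

theorem coeff_zero_factor (d : ℕ) (hd : 1 ≤ d) (y : R) :
    PowerSeries.constantCoeff (1 - PowerSeries.C y * PowerSeries.X ^ d : PowerSeries R) = 1 := by
  rw [map_sub, map_mul, map_pow]
  simp [show d ≠ 0 by omega]

theorem coeff_zero_gs (A : Multiset R) : PowerSeries.coeff 0 (gs A) = 1 := by
  rw [PowerSeries.coeff_zero_eq_constantCoeff_apply, gs, map_multiset_prod, Multiset.map_map]
  have h : (A.map (PowerSeries.constantCoeff ∘ fun x => 1 - PowerSeries.C x * PowerSeries.X ^ 1)) =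
      A.map fun _ => (1 : R) := by
    refine Multiset.map_congr rfl fun x _ => ?_
    exact coeff_zero_factor 1 le_rfl x
  rw [h]
  simp

theorem coeff_zero_pm (N : ℕ) (μ : R) (a : ℕ → ℕ → ℕ) (M : ℕ) :
    PowerSeries.coeff 0 (pm N μ a M) = 1 := by
  rw [PowerSeries.coeff_zero_eq_constantCoeff_apply, pm, map_prod]
  refine Finset.prod_eq_one fun d hd => ?_
  rw [map_prod]
  refine Finset.prod_eq_one fun i _ => ?_
  rw [map_pow, coeff_zero_factor d (Finset.mem_Icc.1 hd).1, one_pow]

/-- The Euler product agrees with the quotient up to the order `M`. -/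
theorem main_congr (hR : ∀ (n : ℕ) (x : R), n ≠ 0 → (n : R) * x = 0 → x = 0) (N : ℕ) (μ : R)
    (a : ℕ → ℕ → ℕ) (A₁ A₂ : Multiset R)
    (h : ∀ n, 1 ≤ n → orbSum N μ a n = (A₁.map fun x => x ^ n).sum - (A₂.map fun x => x ^ n).sum)
    (M : ℕ) : PowerSeries.X ^ (M + 1) ∣ gs A₁ - pm N μ a M * gs A₂ := by
  rw [PowerSeries.X_pow_dvd_iff]
  intro n hn
  rw [map_sub, sub_eq_zero]
  refine isLog_unique hR (isLog_gs A₁) (isLog_mul (isLog_pm N μ a M) (isLog_gs A₂))
    (coeff_zero_gs A₁) ?_ M ?_ n (by omega)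
  · have e1 := coeff_zero_gs A₂
    have e2 := coeff_zero_pm N μ a M
    rw [PowerSeries.coeff_zero_eq_constantCoeff_apply] at e1 e2 ⊢
    rw [map_mul, e1, e2, one_mul]
  · intro n h1 h2
    rw [map_add, coeff_gs A₁ n h1, coeff_gs A₂ n h1, coeff_pm N μ a M n h1 h2, h n h1]
    ring

end Log

theorem main : Pool.Agent.W528.HS.EC := by
  intro E _ _ N μ hN hμ a O A₁ A₂ B₁ B₂ hA hB k _ θ hθ
  obtain ⟨hO, hθ⟩ := hθ
  have hR : ∀ (n : ℕ) (x : O), n ≠ 0 → (n : O) * x = 0 → x = 0 := by
    intro n x hn h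
    have h1 : (n : E) * (x : E) = 0 := by
      have := congrArg (Subtype.val) h
      simpa using this
    rcases mul_eq_zero.1 h1 with h2 | h2
    · exact (hn (Nat.cast_eq_zero.1 h2)).elim
    · exact Subtype.ext h2
  have hcoe : ∀ (ν : O) (n : ℕ), ((orbSum N ν a n : O) : E) = orbSum N (ν : E) a n := by
    intro ν n
    unfold orbSum
    push_cast
    rfl
  have hms : ∀ (A : Multiset O) (n : ℕ), (((A.map fun x => x ^ n).sum : O) : E) =
      (A.map fun x => (x : E) ^ n).sum := by
    intro A n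
    have h0 : (do
        let a ← A
        pure (a : E)) = A.map (fun a : O => (a : E)) := by
      change A.bind (fun a => {(a : E)}) = _
      exact Multiset.bind_singleton A _
    rw [h0, Multiset.map_map]
    have h1 := map_multiset_sum O.subtype (A.map fun x => x ^ n)
    rw [Multiset.map_map] at h1
    exact h1
  have h1 : ∀ n, 1 ≤ n → orbSum N (⟨μ, hO⟩ : O) a n =
      (A₁.map fun x => x ^ n).sum - (A₂.map fun x => x ^ n).sum := by
    intro n hn
    apply Subtype.ext
    rw [hcoe, AddSubgroupClass.coe_sub, hms, hms]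
    exact hA n hn
  have h2 : ∀ n, 1 ≤ n → orbSum N (1 : O) a n =
      (B₁.map fun x => x ^ n).sum - (B₂.map fun x => x ^ n).sum := by
    intro n hn
    apply Subtype.ext
    rw [hcoe, AddSubgroupClass.coe_sub, hms, hms]
    exact hB n hn
  -- reduction
  have hgs : ∀ A : Multiset O, PowerSeries.map θ (gs A) =
      (((A.map fun x => 1 - Polynomial.C (θ x) * Polynomial.X).prod : Polynomial k) :
        PowerSeries k) := by
    intro A
    rw [gs, map_multiset_prod, Multiset.map_map]
    have h3 := map_multiset_prod (Polynomial.coeToPowerSeries.ringHom (R := k))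
      (A.map fun x => 1 - Polynomial.C (θ x) * Polynomial.X)
    rw [Multiset.map_map] at h3
    refine Eq.trans ?_ h3.symm
    congr 1
    refine Multiset.map_congr rfl fun x _ => ?_
    simp
  have hpm : ∀ M, PowerSeries.map θ (pm N (⟨μ, hO⟩ : O) a M) =
      PowerSeries.map θ (pm N (1 : O) a M) := by
    intro M
    unfold pm
    rw [map_prod, map_prod]
    refine Finset.prod_congr rfl fun d _ => ?_
    rw [map_prod, map_prod]
    refine Finset.prod_congr rfl fun i _ => ?_
    simp only [map_pow, map_sub, map_one, map_mul, PowerSeries.map_C, PowerSeries.map_X, hθ]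
  apply Polynomial.coe_injective (R := k)
  rw [Polynomial.coe_mul, Polynomial.coe_mul, ← hgs, ← hgs, ← hgs, ← hgs]
  ext n
  have h3 := map_dvd (PowerSeries.map θ) (main_congr hR N _ a A₁ A₂ h1 n)
  have h4 := map_dvd (PowerSeries.map θ) (main_congr hR N _ a B₁ B₂ h2 n)
  rw [map_pow, PowerSeries.map_X, map_sub, map_mul] at h3 h4
  rw [hpm] at h3
  have h5 : PowerSeries.X ^ (n + 1) ∣ PowerSeries.map θ (gs A₁) * PowerSeries.map θ (gs B₂) -
      PowerSeries.map θ (gs B₁) * PowerSeries.map θ (gs A₂) := by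
    have h6 := dvd_sub (Dvd.dvd.mul_right h3 (PowerSeries.map θ (gs B₂)))
      (Dvd.dvd.mul_right h4 (PowerSeries.map θ (gs A₂)))
    convert h6 using 1
    ring
  have h6 := (PowerSeries.X_pow_dvd_iff.1 h5) n (Nat.lt_succ_self n)
  rwa [map_sub, sub_eq_zero] at h6

end Pool.Agent.W111.HS.EC
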